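import Mathlib

/-! Extremal density of 2-coloured complete graphs (MP_a05470_co): definitions and
the statements of the parts of the proof. -/

set_option autoImplicit false

namespace W872.MX

open Finset Filter

/-- A 2-coloured multigraph: a red and a blue simple graph on the same vertex set.  An edge
lying in both is green, a pair lying in neither is missing. -/
structure MG (V : Type) where
  red : SimpleGraph V
  blue : SimpleGraph V

/-- The weight `p e(red) + (1-p) e(blue)`. -/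
noncomputable def MG.weight {V : Type} (G : MG V) (p : ℝ) : ℝ :=
  p * (G.red.edgeSet.ncard : ℝ) + (1 - p) * (G.blue.edgeSet.ncard : ℝ)

/-- `G` contains the 2-coloured complete graph with red graph `R` and blue graph `Rᶜ`. -/
def Contains {V W : Type} (G : MG V) (R : SimpleGraph W) : Prop :=
  ∃ f : W ↪ V, ∀ x y : W, (R.Adj x y → G.red.Adj (f x) (f y)) ∧
    (Rᶜ.Adj x y → G.blue.Adj (f x) (f y))

/-- `ex_p(n, H)` where `H` is the 2-coloured complete graph with red graph `R`. -/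
noncomputable def ex (p : ℝ) (n : ℕ) {W : Type} (R : SimpleGraph W) : ℝ :=
  sSup {w : ℝ | ∃ G : MG (Fin n), ¬ Contains G R ∧ w = G.weight p}

/-- `R` has, inside the vertex set `T`, `i` edges and `j` non-edges, all pairwise disjoint. -/
def HasRB {W : Type} (R : SimpleGraph W) (T : Finset W) (i j : ℕ) : Prop :=
  ∃ f : (Fin i ⊕ Fin j) × Bool ↪ W, (∀ x, f x ∈ T) ∧
    (∀ a : Fin i, R.Adj (f (Sum.inl a, false)) (f (Sum.inl a, true))) ∧
    (∀ b : Fin j, Rᶜ.Adj (f (Sum.inr b, false)) (f (Sum.inr b, true)))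

/-- Inside `T` there are matchings of size `⌊|T|/2⌋` of `K_T` with every possible number of
red edges. -/
def PM {W : Type} (R : SimpleGraph W) (T : Finset W) : Prop :=
  ∀ i j : ℕ, i + j = T.card / 2 → HasRB R T i j

/-- `Peel R T S k l`: `S` is obtained from `T` by adding one by one `k` vertices joined in blue
to all previous ones and `l` vertices joined in red to all previous ones. -/
inductive Peel {W : Type} [DecidableEq W] (R : SimpleGraph W) (T : Finset W) :
    Finset W → ℕ → ℕ → Prop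
  | base : Peel R T T 0 0
  | blue (S : Finset W) (k l : ℕ) (a : W) : a ∉ S → (∀ s ∈ S, ¬ R.Adj a s) →
      Peel R T S k l → Peel R T (insert a S) (k + 1) l
  | red (S : Finset W) (k l : ℕ) (a : W) : a ∉ S → (∀ s ∈ S, R.Adj a s) →
      Peel R T S k l → Peel R T (insert a S) k (l + 1)

/-- The colourings we treat. -/
def Good {W : Type} [Fintype W] [DecidableEq W] (R : SimpleGraph W) : Prop :=
  ∃ (T : Finset W) (k l : ℕ), Peel R T univ k l ∧ T.Nonempty ∧ PM R T ∧ (k = l ∨ T.card = 1)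

/-- the vertices of `S` not joined in red to `v` -/
noncomputable def nonred {V : Type} [DecidableEq V] (G : MG V) (S : Finset V) (v : V) : ℕ :=
  by classical exact (S.filter (fun u => u ≠ v ∧ ¬ G.red.Adj v u)).card

/-- the vertices of `S` not joined in blue to `v` -/
noncomputable def nonblue {V : Type} [DecidableEq V] (G : MG V) (S : Finset V) (v : V) : ℕ :=
  by classical exact (S.filter (fun u => u ≠ v ∧ ¬ G.blue.Adj v u)).card

/-- `R` restricted to `T` embeds in `G` restricted to `U`. -/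
def EmbIn {V W : Type} (G : MG V) (U : Finset V) (R : SimpleGraph W) (T : Finset W) : Prop :=
  ∃ f : W → V, Set.InjOn f T ∧ (∀ x ∈ T, f x ∈ U) ∧
    ∀ x ∈ T, ∀ y ∈ T, (R.Adj x y → G.red.Adj (f x) (f y)) ∧
      (Rᶜ.Adj x y → G.blue.Adj (f x) (f y))

/-! ### The parts -/

/-- PART.WGT: total weight in terms of the costs. -/
def PartWGT : Prop :=
  ∀ (n : ℕ) (G : MG (Fin n)) (p : ℝ),
    G.weight p = (n.choose 2 : ℝ) -
      (1 / 2) * ∑ v : Fin n, (p * (nonred G univ v : ℝ) + (1 - p) * (nonblue G univ v : ℝ))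

/-- PART.SUM: a lower bound for one vertex in every nonempty set gives a lower bound for the
total cost. -/
def PartSUM : Prop :=
  ∀ (n : ℕ) (G : MG (Fin n)) (p : ℝ) (g : ℕ → ℝ),
    (∀ S : Finset (Fin n), S.Nonempty →
      ∃ v ∈ S, g S.card ≤ p * (nonred G S v : ℝ) + (1 - p) * (nonblue G S v : ℝ)) →
    ∀ S : Finset (Fin n), ∑ m ∈ range S.card, g (m + 1) ≤
      (1 / 2) * ∑ v ∈ S, (p * (nonred G S v : ℝ) + (1 - p) * (nonblue G S v : ℝ))

/-- PART.LOV: the partition lemma. -/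
def PartLOV : Prop :=
  ∀ (n : ℕ) (G : MG (Fin n)) (S : Finset (Fin n)) (N t : ℕ),
    (∀ v ∈ S, nonred G S v + nonblue G S v < 2 * N) → t * N < S.card →
    ∃ U ⊆ S, U.card = t + 1 ∧ ∀ v ∈ U, nonred G U v + nonblue G U v ≤ 1

/-- PART.EMB: a set in which every vertex has at most one defect contains every colouring
with property `PM`. -/
def PartEMB : Prop :=
  ∀ (n : ℕ) (G : MG (Fin n)) (U : Finset (Fin n)) (W : Type) [Fintype W] [DecidableEq W]
    (R : SimpleGraph W) (T : Finset W), T.Nonempty →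
    (∀ v ∈ U, nonred G U v + nonblue G U v ≤ 1) → U.card = T.card → PM R T → EmbIn G U R T

/-- PART.PEEL: greedy embedding of the peeled vertices. -/
def PartPEEL : Prop :=
  ∀ (n : ℕ) (G : MG (Fin n)) (S₀ : Finset (Fin n)) (x y : Fin n → ℝ) (B : ℝ)
    (W : Type) [Fintype W] [DecidableEq W] (R : SimpleGraph W) (T : Finset W),
    (∀ v ∈ S₀, 1 + (nonblue G S₀ v : ℝ) ≤ x v) → (∀ v ∈ S₀, 1 + (nonred G S₀ v : ℝ) ≤ y v) →
    0 ≤ B →
    (∀ S ⊆ S₀, S.Nonempty → B < S.card → EmbIn G S R T) →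
    ∀ (S' : Finset W) (k l : ℕ), Peel R T S' k l →
      ∀ S ⊆ S₀, S.Nonempty → (∀ v ∈ S, (k : ℝ) * x v + (l : ℝ) * y v + B < S.card) →
        EmbIn G S R S'

/-- PART.TUR: the green Turán graph. -/
def PartTUR : Prop :=
  (∀ (n s : ℕ), 1 ≤ s → ((SimpleGraph.turanGraph n s).edgeSet.ncard : ℝ) =
      ∑ m ∈ range n, ((m : ℝ) - ((m / s : ℕ) : ℝ))) ∧
  (∀ (n h : ℕ) (p : ℝ) (R : SimpleGraph (Fin h)), 2 ≤ h → 0 ≤ p → p ≤ 1 →
      ((SimpleGraph.turanGraph n (h - 1)).edgeSet.ncard : ℝ) ≤ ex p n R) ∧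
  (∀ (s : ℕ), 1 ≤ s → Tendsto (fun n : ℕ =>
      ((SimpleGraph.turanGraph n s).edgeSet.ncard : ℝ) / (n.choose 2 : ℝ)) atTop
      (nhds (1 - 1 / (s : ℝ))))

/-- PART.ODD: for odd order, near-perfect matchings in both colours suffice. -/
def PartODD : Prop :=
  ∀ (r : ℕ) (R : SimpleGraph (Fin (2 * r + 1))),
    HasRB R univ r 0 → HasRB R univ 0 r → PM R univ

/-- PART.FIVE: all colourings of order 2, 3, 5, and all but two colourings of order 4. -/
def PartFIVE : Prop :=
  (∀ (h : ℕ) (R : SimpleGraph (Fin h)), h = 2 ∨ h = 3 ∨ h = 5 → Good R) ∧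
  (∀ R : SimpleGraph (Fin 4), ¬ Good R →
    ∃ e : Fin 4 ≃ Fin 4, (∀ x y, R.Adj (e x) (e y) ↔ x ≠ y ∧ x.val / 2 = y.val / 2) ∨
      (∀ x y, R.Adj (e x) (e y) ↔ x.val / 2 ≠ y.val / 2))

/-- PART.RND: almost all colourings of odd order have property `PM`. -/
def PartRND : Prop :=
  Tendsto (fun r : ℕ => ((Nat.card {R : SimpleGraph (Fin (2 * r + 1)) // PM R univ} : ℕ) : ℝ) /
    ((Nat.card (SimpleGraph (Fin (2 * r + 1))) : ℕ) : ℝ)) atTop (nhds 1)

end W872.MX
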