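import Pool.Agent.W872.MX.MainB

set_option autoImplicit false

namespace W872.MX

open Finset Filter

theorem tendsto_of_even_odd {f : ℕ → ℝ} {c : ℝ}
    (h0 : Tendsto (fun t : ℕ => f (2 * t)) atTop (nhds c))
    (h1 : Tendsto (fun r : ℕ => f (2 * r + 1)) atTop (nhds c)) : Tendsto f atTop (nhds c) := by
  rw [Metric.tendsto_atTop] at h0 h1 ⊢
  intro ε hε
  obtain ⟨N0, hN0⟩ := h0 ε hε
  obtain ⟨N1, hN1⟩ := h1 ε hε
  refine ⟨2 * (N0 + N1) + 1, fun n hn => ?_⟩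
  rcases Nat.even_or_odd' n with ⟨k, hk | hk⟩
  · rw [hk]; exact hN0 k (by omega)
  · rw [hk]; exact hN1 k (by omega)

theorem finalThm (hW : PartWGT) (hSum : PartSUM) (hL : PartLOV) (hE : PartEMB)
    (hT : PartTUR) (hO : PartODD) (hF : PartFIVE) (hR : PartODD → PartRND)
    (hST : PartSTEP) (hES : PartEMBS) (hTB : PartTB) (hI : PartINT) (hM : PartMON)
    (hG : PartGAD) (hRE : PartGAD → PartRNDE) :
    -- (1) universal bound
    (∀ (h : ℕ) (R : SimpleGraph (Fin h)), 2 ≤ h → ∃ p μ : ℝ, 0 ≤ p ∧ p ≤ 1 ∧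
      Tendsto (fun n : ℕ => ex p n R / (n.choose 2 : ℝ)) atTop (nhds μ) ∧
      μ ≤ 1 - 3 / (4 * ((h : ℝ) - 1))) ∧
    -- (2) matchings of size ν in both colours
    (∀ (h : ℕ) (R : SimpleGraph (Fin h)) (ν : ℕ), 2 ≤ h → 2 * ν < h →
      HasRB R univ ν 0 → HasRB R univ 0 ν → ∃ μ : ℝ,
      Tendsto (fun n : ℕ => ex (1 / 2) n R / (n.choose 2 : ℝ)) atTop (nhds μ) ∧
      μ ≤ 1 - 1 / (2 * ((h : ℝ) - 1 - ν))) ∧
    -- (3) exact extremal numbers
    (∀ (h : ℕ) (R : SimpleGraph (Fin h)), 2 ≤ h → PM R univ → ∀ n : ℕ,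
      ex (1 / 2) n R = ((SimpleGraph.turanGraph n (h - 1)).edgeSet.ncard : ℝ)) ∧
    -- (4) adding dominating vertices
    (∀ (h : ℕ) (R : SimpleGraph (Fin h)) (T : Finset (Fin h)) (k l : ℕ), 2 ≤ h →
      Peel R T univ k l → T.Nonempty → PM R T → ∃ p : ℝ, 0 ≤ p ∧ p ≤ 1 ∧
      Tendsto (fun n : ℕ => ex p n R / (n.choose 2 : ℝ)) atTop (nhds (1 - 1 / ((h : ℝ) - 1)))) ∧
    -- (5) odd order criterion
    (∀ (r : ℕ) (R : SimpleGraph (Fin (2 * r + 1))),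
      HasRB R univ r 0 → HasRB R univ 0 r → PM R univ) ∧
    -- (6) even order criterion
    (∀ (t : ℕ) (R : SimpleGraph (Fin (2 * t))) (Q : Finset (Fin (2 * t))), Q.card = 4 →
      HasRB R Q 2 0 → HasRB R Q 1 1 → HasRB R Q 0 2 →
      HasRB R Qᶜ (t - 2) 0 → HasRB R Qᶜ 0 (t - 2) → PM R univ) ∧
    -- (7) almost all colourings
    Tendsto (fun n : ℕ => ((Nat.card {R : SimpleGraph (Fin n) // PM R univ} : ℕ) : ℝ) /
      ((Nat.card (SimpleGraph (Fin n)) : ℕ) : ℝ)) atTop (nhds 1) ∧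
    -- (8) orders 2, 3, 5 and 4
    (∀ (h : ℕ) (R : SimpleGraph (Fin h)), h = 2 ∨ h = 3 ∨ h = 5 → ∃ p : ℝ, 0 ≤ p ∧ p ≤ 1 ∧
      Tendsto (fun n : ℕ => ex p n R / (n.choose 2 : ℝ)) atTop (nhds (1 - 1 / ((h : ℝ) - 1)))) ∧
    (∀ R : SimpleGraph (Fin 4),
      (∃ p : ℝ, 0 ≤ p ∧ p ≤ 1 ∧
        Tendsto (fun n : ℕ => ex p n R / (n.choose 2 : ℝ)) atTop (nhds (1 - 1 / 3))) ∨
      ∃ e : Fin 4 ≃ Fin 4, (∀ x y, R.Adj (e x) (e y) ↔ x ≠ y ∧ x.val / 2 = y.val / 2) ∨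
        (∀ x y, R.Adj (e x) (e y) ↔ x.val / 2 ≠ y.val / 2)) ∧
    -- (9) the trivial lower bound, for every p
    (∀ (n h : ℕ) (p : ℝ) (R : SimpleGraph (Fin h)), 2 ≤ h → 0 ≤ p → p ≤ 1 →
      ((SimpleGraph.turanGraph n (h - 1)).edgeSet.ncard : ℝ) ≤ ex p n R) := by
  have hgood : ∀ (h : ℕ) (R : SimpleGraph (Fin h)) (T : Finset (Fin h)) (k l : ℕ), 2 ≤ h →
      Peel R T univ k l → T.Nonempty → PM R T → ∃ p : ℝ, 0 ≤ p ∧ p ≤ 1 ∧
      Tendsto (fun n : ℕ => ex p n R / (n.choose 2 : ℝ)) atTop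
        (nhds (1 - 1 / ((h : ℝ) - 1))) := by
    intro h R T k l hh hP hTne hPM
    have hc := peel_card hP
    rw [Finset.card_univ, Fintype.card_fin] at hc
    have h1 := hasType_of_PMs hL hES R T 0 hTne (PMs_zero hPM)
    have hT1 : (1 : ℝ) ≤ T.card := by exact_mod_cast hTne.card_pos
    have hnn : (0 : ℝ) ≤ ((T.card : ℝ) + ((0 : ℕ) : ℝ) - 1) / 2 := by
      push_cast; linarith
    have h2 := hasType_peel hST R T hnn hnn h1 univ k l hP
    refine mu_eq_of_type hW hSum hT hh R ?_ ?_ ?_ h2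
    · positivity
    · positivity
    · have h0 : (h : ℝ) = (T.card : ℝ) + k + l := by exact_mod_cast hc
      rw [h0]; push_cast; ring
  refine ⟨?_, ?_, ?_, hgood, hO, hG, ?_, ?_, ?_, hT.2.1⟩
  · intro h R hh
    have hne : (univ : Finset (Fin h)).Nonempty := ⟨⟨0, by omega⟩, mem_univ _⟩
    have hh1 : (0 : ℝ) < (h : ℝ) - 1 := by
      have : (2 : ℝ) ≤ h := by exact_mod_cast hh
      linarith
    obtain ⟨a, b, ha, hb, hty, hsum⟩ :=
      universalType hL hES hST hI hTB R _ univ rfl hne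
    rw [Finset.card_univ, Fintype.card_fin] at hsum
    -- raise a so that the total is exactly (4/3)(h-1)
    set a' : ℝ := (4 / 3) * ((h : ℝ) - 1) - b with ha'
    have haa : a ≤ a' := by rw [ha']; linarith
    have hty' := hty.mono haa (le_refl b)
    have hab : 0 < a' + b := by rw [ha']; linarith
    obtain ⟨h1, h2, μ, h3, h4⟩ := mu_le_of_type hW hSum hM hh R (ha.trans haa) hb hab hty'
    refine ⟨_, μ, h1, h2, h4, h3.trans (le_of_eq ?_)⟩
    have h5 : a' + b = (4 / 3) * ((h : ℝ) - 1) := by rw [ha']; ring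
    rw [h5]
    field_simp
  · intro h R ν hh hν h1 h2
    have hne : (univ : Finset (Fin h)).Nonempty := ⟨⟨0, by omega⟩, mem_univ _⟩
    have hcard : (univ : Finset (Fin h)).card = h := by simp
    have hν' : 2 * ν < (univ : Finset (Fin h)).card := by rw [hcard]; exact hν
    have hP := PMs_of_matchings hI R univ ν hν' h1 h2
    have hty := hasType_of_PMs hL hES R univ _ hne hP
    rw [hcard] at hty
    have hcast : ((h - 2 * ν - 1 : ℕ) : ℝ) = (h : ℝ) - 2 * ν - 1 := by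
      rw [Nat.cast_sub (by omega), Nat.cast_sub (by omega)]; push_cast; ring
    have hval : ((h : ℝ) + ((h - 2 * ν - 1 : ℕ) : ℝ) - 1) / 2 = (h : ℝ) - 1 - ν := by
      rw [hcast]; ring
    rw [hval] at hty
    have hpos : (0 : ℝ) < (h : ℝ) - 1 - ν := by
      have : ν + 2 ≤ h := by omega
      have h3 : (ν : ℝ) + 2 ≤ h := by exact_mod_cast this
      linarith
    obtain ⟨-, -, μ, h3, h4⟩ := mu_le_of_type hW hSum hM hh R hpos.le hpos.le
      (by linarith) hty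
    have hp : ((h : ℝ) - 1 - ν) / ((h : ℝ) - 1 - ν + ((h : ℝ) - 1 - ν)) = 1 / 2 := by
      field_simp; ring
    rw [hp] at h4
    refine ⟨μ, h4, h3.trans (le_of_eq ?_)⟩
    rw [← two_mul]
  · intro h R hh hPM n
    exact exact hW hSum hL hE hT R hh hPM n
  · exact tendsto_of_even_odd (hRE hG) (hR hO)
  · intro h R hh
    obtain ⟨T, k, l, h1, h2, h3, -⟩ := hF.1 h R hh
    exact hgood h R T k l (by omega) h1 h2 h3
  · intro R
    by_cases hgd : Good R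
    · left
      obtain ⟨T, k, l, h1, h2, h3, -⟩ := hgd
      obtain ⟨p, hp0, hp1, hp⟩ := hgood 4 R T k l (by norm_num) h1 h2 h3
      refine ⟨p, hp0, hp1, ?_⟩
      have : (1 : ℝ) - 1 / (((4 : ℕ) : ℝ) - 1) = 1 - 1 / 3 := by norm_num
      rw [this] at hp
      exact hp
    · right
      exact hF.2 R hgd

end W872.MX
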