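import Pool.Agent.W872.MX.Stm

set_option autoImplicit false

namespace W872.MX

open Finset Filter

theorem nonred_mono {V : Type} [DecidableEq V] (G : MG V) {S S' : Finset V} (h : S' ⊆ S) (v : V) :
    nonred G S' v ≤ nonred G S v := by
  classical
  unfold nonred
  apply Finset.card_le_card
  intro u hu
  simp only [Finset.mem_filter] at hu ⊢
  exact ⟨h hu.1, hu.2⟩

theorem nonblue_mono {V : Type} [DecidableEq V] (G : MG V) {S S' : Finset V} (h : S' ⊆ S)
    (v : V) : nonblue G S' v ≤ nonblue G S v := by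
  classical
  unfold nonblue
  apply Finset.card_le_card
  intro u hu
  simp only [Finset.mem_filter] at hu ⊢
  exact ⟨h hu.1, hu.2⟩

theorem EmbIn.mono {V W : Type} {G : MG V} {U U' : Finset V} {R : SimpleGraph W} {T : Finset W}
    (h : EmbIn G U R T) (hU : U ⊆ U') : EmbIn G U' R T := by
  obtain ⟨f, h1, h2, h3⟩ := h
  exact ⟨f, h1, fun x hx => hU (h2 x hx), h3⟩

theorem contains_of_embIn {n : ℕ} {G : MG (Fin n)} {W : Type} [Fintype W] [DecidableEq W]
    {R : SimpleGraph W} {U : Finset (Fin n)} (h : EmbIn G U R univ) : Contains G R := by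
  obtain ⟨f, h1, -, h3⟩ := h
  refine ⟨⟨f, ?_⟩, fun x y => h3 x (mem_univ x) y (mem_univ y)⟩
  intro a b hab
  exact h1 (by simp) (by simp) hab

theorem peel_card {W : Type} [DecidableEq W] {R : SimpleGraph W} {T S : Finset W} {k l : ℕ}
    (h : Peel R T S k l) : S.card = T.card + k + l := by
  induction h with
  | base => simp
  | blue S k l a ha _ _ ih => rw [Finset.card_insert_of_notMem ha, ih]; ring
  | red S k l a ha _ _ ih => rw [Finset.card_insert_of_notMem ha, ih]; ring

/-- exact step -/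
theorem stepPM (hL : PartLOV) (hE : PartEMB) {n h : ℕ} (G : MG (Fin n))
    (R : SimpleGraph (Fin h)) (hh : 2 ≤ h) (hPM : PM R univ) (hG : ¬ Contains G R)
    (S : Finset (Fin n)) (hS : S.Nonempty) :
    ∃ v ∈ S, (((S.card - 1) / (h - 1) : ℕ) : ℝ) ≤
      (1 / 2) * (nonred G S v : ℝ) + (1 - 1 / 2) * (nonblue G S v : ℝ) := by
  by_contra hcon
  push Not at hcon
  set N : ℕ := (S.card - 1) / (h - 1) with hN
  have h1 : ∀ v ∈ S, nonred G S v + nonblue G S v < 2 * N := by
    intro v hv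
    have := hcon v hv
    have h2 : ((nonred G S v + nonblue G S v : ℕ) : ℝ) < ((2 * N : ℕ) : ℝ) := by
      push_cast
      linarith
    exact_mod_cast h2
  have hpos : 0 < S.card := hS.card_pos
  have h3 : (h - 1) * N < S.card := by
    have h4 : (h - 1) * N ≤ S.card - 1 := Nat.mul_div_le (S.card - 1) (h - 1)
    omega
  obtain ⟨U, hUS, hUc, hU⟩ := hL n G S N (h - 1) h1 h3
  have hc : U.card = (univ : Finset (Fin h)).card := by
    rw [hUc, Finset.card_univ, Fintype.card_fin]; omega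
  have hne : (univ : Finset (Fin h)).Nonempty := ⟨⟨0, by omega⟩, mem_univ _⟩
  exact hG (contains_of_embIn (hE n G U (Fin h) R univ hne hU hc hPM))

theorem weight_le_of_step (hW : PartWGT) (hSum : PartSUM) {n : ℕ} (G : MG (Fin n)) (p : ℝ)
    (g : ℕ → ℝ) (hg : ∀ S : Finset (Fin n), S.Nonempty →
      ∃ v ∈ S, g S.card ≤ p * (nonred G S v : ℝ) + (1 - p) * (nonblue G S v : ℝ)) :
    G.weight p ≤ (n.choose 2 : ℝ) - ∑ m ∈ range n, g (m + 1) := by
  have h1 := hSum n G p g hg univ
  rw [Finset.card_univ, Fintype.card_fin] at h1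
  rw [hW n G p]
  linarith

theorem not_contains_bot {n h : ℕ} (hh : 2 ≤ h) (R : SimpleGraph (Fin h)) :
    ¬ Contains (⟨⊥, ⊥⟩ : MG (Fin n)) R := by
  rintro ⟨f, hf⟩
  have hne : (⟨0, by omega⟩ : Fin h) ≠ ⟨1, by omega⟩ := by
    intro h; simp at h
  have := hf ⟨0, by omega⟩ ⟨1, by omega⟩
  by_cases hR : R.Adj ⟨0, by omega⟩ ⟨1, by omega⟩
  · exact (this.1 hR).elim
  · exact (this.2 ((SimpleGraph.compl_adj _ _ _).2 ⟨hne, hR⟩)).elim

theorem ex_le {n h : ℕ} (hh : 2 ≤ h) (R : SimpleGraph (Fin h)) (p c : ℝ)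
    (H : ∀ G : MG (Fin n), ¬ Contains G R → G.weight p ≤ c) : ex p n R ≤ c := by
  unfold ex
  apply csSup_le
  · exact ⟨_, ⟨⊥, ⊥⟩, not_contains_bot hh R, rfl⟩
  · rintro w ⟨G, hG, rfl⟩
    exact H G hG

theorem choose_two_eq_sum (n : ℕ) : ((n.choose 2 : ℕ) : ℝ) = ∑ m ∈ range n, (m : ℝ) := by
  induction n with
  | zero => simp
  | succ n ih =>
    rw [Finset.sum_range_succ, ← ih, Nat.choose_succ_succ' n 1]
    push_cast
    simp
    ring

/-- the exact theorem -/
theorem exact (hW : PartWGT) (hSum : PartSUM) (hL : PartLOV) (hE : PartEMB) (hT : PartTUR)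
    {h : ℕ} (R : SimpleGraph (Fin h)) (hh : 2 ≤ h) (hPM : PM R univ) (n : ℕ) :
    ex (1 / 2) n R = ((SimpleGraph.turanGraph n (h - 1)).edgeSet.ncard : ℝ) := by
  apply le_antisymm
  · apply ex_le hh
    intro G hG
    have h1 := weight_le_of_step hW hSum G (1 / 2)
      (fun m => (((m - 1) / (h - 1) : ℕ) : ℝ)) (fun S hS => stepPM hL hE G R hh hPM hG S hS)
    rw [hT.1 n (h - 1) (by omega), Finset.sum_sub_distrib]
    simp only [Nat.add_sub_cancel] at h1
    rw [← choose_two_eq_sum]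
    exact h1
  · exact hT.2.1 n h (1 / 2) R hh (by norm_num) (by norm_num)

/-- the greedy step for good colourings -/
theorem stepGood (hL : PartLOV) (hE : PartEMB) (hP : PartPEEL) {h : ℕ}
    (R : SimpleGraph (Fin h)) (hh : 2 ≤ h) (hR : Good R) :
    ∃ p : ℝ, 0 ≤ p ∧ p ≤ 1 ∧ ∀ (n : ℕ) (G : MG (Fin n)), ¬ Contains G R →
      ∀ S : Finset (Fin n), S.Nonempty → ∃ v ∈ S, (S.card : ℝ) / ((h : ℝ) - 1) - 1 ≤
        p * (nonred G S v : ℝ) + (1 - p) * (nonblue G S v : ℝ) := by
  obtain ⟨T, k, l, hpeel, hTne, hPM, hcase⟩ := hR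
  have hcard := peel_card hpeel
  rw [Finset.card_univ, Fintype.card_fin] at hcard
  have hT1 : 1 ≤ T.card := hTne.card_pos
  have hh1 : (0 : ℝ) < (h : ℝ) - 1 := by
    have : (2 : ℝ) ≤ h := by exact_mod_cast hh
    linarith
  by_cases hc : T.card = 1
  · -- nested case
    have hkl : (h : ℝ) - 1 = (k : ℝ) + l := by
      have h0 : (h : ℝ) = (T.card : ℝ) + k + l := by exact_mod_cast hcard
      have h1 : (T.card : ℝ) = 1 := by exact_mod_cast hc
      linarith
    have hkl0 : (0 : ℝ) < (k : ℝ) + l := by rw [← hkl]; exact hh1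
    refine ⟨(l : ℝ) / ((k : ℝ) + l), by positivity, ?_, ?_⟩
    · rw [div_le_one hkl0]
      have : (0 : ℝ) ≤ k := Nat.cast_nonneg k
      linarith
    intro n G hG S hS
    by_contra hcon
    push Not at hcon
    have key : ∀ v ∈ S, (k : ℝ) * (1 + (nonblue G S v : ℝ)) + (l : ℝ) * (1 + (nonred G S v : ℝ))
        + 0 < S.card := by
      intro v hv
      have h1 := hcon v hv
      rw [hkl] at h1
      have h2 : (1 : ℝ) - (l : ℝ) / ((k : ℝ) + l) = (k : ℝ) / ((k : ℝ) + l) := by
        field_simp; ring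
      rw [h2] at h1
      have h3 : ((l : ℝ) / ((k : ℝ) + l) * (nonred G S v : ℝ) +
          (k : ℝ) / ((k : ℝ) + l) * (nonblue G S v : ℝ) + 1) * ((k : ℝ) + l) < S.card := by
        have h4 : (l : ℝ) / ((k : ℝ) + l) * (nonred G S v : ℝ) +
          (k : ℝ) / ((k : ℝ) + l) * (nonblue G S v : ℝ) + 1 < (S.card : ℝ) / ((k : ℝ) + l) := by
          linarith
        rwa [lt_div_iff₀ hkl0] at h4
      have h5 : ((l : ℝ) / ((k : ℝ) + l) * (nonred G S v : ℝ) +
          (k : ℝ) / ((k : ℝ) + l) * (nonblue G S v : ℝ) + 1) * ((k : ℝ) + l) =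
          (k : ℝ) * (1 + (nonblue G S v : ℝ)) + (l : ℝ) * (1 + (nonred G S v : ℝ)) := by
        field_simp; ring
      rw [h5] at h3
      linarith
    obtain ⟨a, ha⟩ := Finset.card_eq_one.1 hc
    have hbase : ∀ S' ⊆ S, S'.Nonempty → (0 : ℝ) < S'.card → EmbIn G S' R T := by
      intro S' _ hne _
      obtain ⟨v, hv⟩ := hne
      refine ⟨fun _ => v, ?_, fun _ _ => hv, ?_⟩
      · rw [ha]; simp
      · intro x hx y hy
        rw [ha, Finset.mem_singleton] at hx hy
        subst hx; subst hy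
        exact ⟨fun h => (R.loopless.irrefl _ h).elim, fun h => (Rᶜ.loopless.irrefl _ h).elim⟩
    have := hP n G S (fun v => 1 + (nonblue G S v : ℝ)) (fun v => 1 + (nonred G S v : ℝ)) 0
      (Fin h) R T (fun v _ => le_refl _) (fun v _ => le_refl _) (le_refl _) hbase univ k l hpeel
      S (Finset.Subset.refl _) hS key
    exact hG (contains_of_embIn this)
  · have hkl : k = l := by
      rcases hcase with h | h
      · exact h
      · exact (hc h).elim
    subst hkl
    refine ⟨1 / 2, by norm_num, by norm_num, ?_⟩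
    intro n G hG S hS
    by_contra hcon
    push Not at hcon
    obtain ⟨w, hw, hmax⟩ := Finset.exists_max_image S
      (fun v => nonred G S v + nonblue G S v) hS
    set D : ℕ := nonred G S w + nonblue G S w with hD
    set N : ℕ := D / 2 + 1 with hN
    have hND : D < 2 * N := by omega
    have hNle : (N : ℝ) ≤ 1 + (D : ℝ) / 2 := by
      have : 2 * (D / 2) ≤ D := Nat.mul_div_le D 2
      have h2 : (2 : ℝ) * ((D / 2 : ℕ) : ℝ) ≤ D := by exact_mod_cast this
      rw [hN]; push_cast at h2 ⊢; linarith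
    have hbig : ((h : ℝ) - 1) * (1 + (D : ℝ) / 2) < S.card := by
      have h1 := hcon w hw
      have h2 : (1 : ℝ) + (D : ℝ) / 2 < (S.card : ℝ) / ((h : ℝ) - 1) := by
        rw [hD]; push_cast; linarith
      rw [lt_div_iff₀ hh1] at h2
      linarith
    have hsum : (h : ℝ) - 1 = 2 * (k : ℝ) + ((T.card : ℝ) - 1) := by
      have h0 : (h : ℝ) = (T.card : ℝ) + k + k := by exact_mod_cast hcard
      linarith
    have hT1' : (0 : ℝ) ≤ (T.card : ℝ) - 1 := by
      have : (1 : ℝ) ≤ T.card := by exact_mod_cast hT1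
      linarith
    have key : ∀ v ∈ S, (k : ℝ) * (1 + (nonblue G S v : ℝ)) + (k : ℝ) * (1 + (nonred G S v : ℝ))
        + ((T.card : ℝ) - 1) * N < S.card := by
      intro v hv
      have h1 : ((nonred G S v + nonblue G S v : ℕ) : ℝ) ≤ (D : ℝ) := by
        exact_mod_cast hmax v hv
      push_cast at h1
      have hk : (0 : ℝ) ≤ k := Nat.cast_nonneg k
      have h2 : (k : ℝ) * (1 + (nonblue G S v : ℝ)) + (k : ℝ) * (1 + (nonred G S v : ℝ)) ≤
          (2 * (k : ℝ)) * (1 + (D : ℝ) / 2) := by nlinarith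
      have h3 : ((T.card : ℝ) - 1) * N ≤ ((T.card : ℝ) - 1) * (1 + (D : ℝ) / 2) :=
        mul_le_mul_of_nonneg_left hNle hT1'
      rw [hsum] at hbig
      nlinarith
    have hbase : ∀ S' ⊆ S, S'.Nonempty → ((T.card : ℝ) - 1) * N < S'.card →
        EmbIn G S' R T := by
      intro S' hS' _ hlt
      have h1 : ∀ v ∈ S', nonred G S' v + nonblue G S' v < 2 * N := by
        intro v hv
        have h2 := hmax v (hS' hv)
        have h3 := nonred_mono G hS' v
        have h4 := nonblue_mono G hS' v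
        omega
      have h2 : (T.card - 1) * N < S'.card := by
        have : (((T.card - 1 : ℕ) * N : ℕ) : ℝ) < (S'.card : ℝ) := by
          rw [Nat.cast_mul, Nat.cast_sub hT1]; push_cast; exact hlt
        exact_mod_cast this
      obtain ⟨U, hUS, hUc, hU⟩ := hL n G S' N (T.card - 1) h1 h2
      have hc' : U.card = T.card := by rw [hUc]; omega
      exact (hE n G U (Fin h) R T hTne hU hc' hPM).mono hUS
    have := hP n G S (fun v => 1 + (nonblue G S v : ℝ)) (fun v => 1 + (nonred G S v : ℝ))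
      (((T.card : ℝ) - 1) * N)
      (Fin h) R T (fun v _ => le_refl _) (fun v _ => le_refl _) (by positivity) hbase univ k k
      hpeel S (Finset.Subset.refl _) hS key
    exact hG (contains_of_embIn this)

theorem limitGood (hW : PartWGT) (hSum : PartSUM) (hL : PartLOV) (hE : PartEMB)
    (hP : PartPEEL) (hT : PartTUR) {h : ℕ}
    (R : SimpleGraph (Fin h)) (hh : 2 ≤ h) (hR : Good R) :
    ∃ p : ℝ, 0 ≤ p ∧ p ≤ 1 ∧ Tendsto (fun n : ℕ => ex p n R / (n.choose 2 : ℝ)) atTop
      (nhds (1 - 1 / ((h : ℝ) - 1))) := by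
  obtain ⟨p, hp0, hp1, hstep⟩ := stepGood hL hE hP R hh hR
  refine ⟨p, hp0, hp1, ?_⟩
  have hcast : ((h - 1 : ℕ) : ℝ) = (h : ℝ) - 1 := by
    rw [Nat.cast_sub (by omega)]; simp
  have hh1 : (0 : ℝ) < (h : ℝ) - 1 := by
    have : (2 : ℝ) ≤ h := by exact_mod_cast hh
    linarith
  have hlow := hT.2.2 (h - 1) (by omega)
  rw [hcast] at hlow
  have hup : ∀ n : ℕ, ex p n R ≤ (1 - 1 / ((h : ℝ) - 1)) * (n.choose 2 : ℝ) + n := by
    intro n
    apply ex_le hh
    intro G hG
    have h1 := weight_le_of_step hW hSum G p (fun m => (m : ℝ) / ((h : ℝ) - 1) - 1)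
      (fun S hS => hstep n G hG S hS)
    have h2 : (n.choose 2 : ℝ) / ((h : ℝ) - 1) - n ≤
        ∑ m ∈ range n, (((m + 1 : ℕ) : ℝ) / ((h : ℝ) - 1) - 1) := by
      rw [Finset.sum_sub_distrib, ← Finset.sum_div]
      simp only [Finset.sum_const, Finset.card_range, nsmul_eq_mul, mul_one]
      have h3 : ((n.choose 2 : ℕ) : ℝ) ≤ ∑ m ∈ range n, ((m + 1 : ℕ) : ℝ) := by
        rw [choose_two_eq_sum]
        apply Finset.sum_le_sum
        intro m _
        push_cast
        linarith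
      have := div_le_div_of_nonneg_right h3 hh1.le
      linarith
    have h4 : (1 - 1 / ((h : ℝ) - 1)) * (n.choose 2 : ℝ) =
        (n.choose 2 : ℝ) - (n.choose 2 : ℝ) / ((h : ℝ) - 1) := by ring
    rw [h4]
    linarith
  have hnn : Tendsto (fun n : ℕ => (1 - 1 / ((h : ℝ) - 1)) + (n : ℝ) / (n.choose 2 : ℝ)) atTop
      (nhds ((1 - 1 / ((h : ℝ) - 1)) + 0)) := by
    apply Tendsto.add tendsto_const_nhds
    have h1 : Tendsto (fun n : ℕ => 2 / ((n : ℝ) - 1)) atTop (nhds 0) := by
      apply Tendsto.div_atTop tendsto_const_nhds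
      exact tendsto_atTop_add_const_right _ (-1) tendsto_natCast_atTop_atTop
    apply h1.congr'
    filter_upwards [eventually_ge_atTop 2] with n hn
    rw [Nat.cast_choose_two]
    have : (2 : ℝ) ≤ n := by exact_mod_cast hn
    have h5 : (n : ℝ) - 1 ≠ 0 := by linarith
    have h6 : (n : ℝ) ≠ 0 := by linarith
    field_simp
  rw [add_zero] at hnn
  refine tendsto_of_tendsto_of_tendsto_of_le_of_le' hlow hnn ?_ ?_
  · filter_upwards with n
    apply div_le_div_of_nonneg_right (hT.2.1 n h p R hh hp0 hp1)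
    positivity
  · filter_upwards [eventually_ge_atTop 2] with n hn
    have hpos : (0 : ℝ) < (n.choose 2 : ℝ) := by
      exact_mod_cast Nat.choose_pos hn
    rw [div_le_iff₀ hpos, add_mul, div_mul_cancel₀ _ hpos.ne']
    exact hup n

end W872.MX
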