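import Pool.Agent.W872.MX.StmB
import Pool.Agent.W872.MX.Main

set_option autoImplicit false

namespace W872.MX

open Finset Filter

theorem HasType.mono {W : Type} {R : SimpleGraph W} {T : Finset W} {a b a' b' : ℝ}
    (h : HasType R T a b) (ha : a ≤ a') (hb : b ≤ b') : HasType R T a' b' := by
  intro n G S₀ x y hx hy S hS hne hlt
  refine h n G S₀ x y hx hy S hS hne (fun v hv => ?_)
  have h1 := hlt v hv
  have hx1 : 0 ≤ x v := by
    have := hx v (hS hv)
    have h2 : (0 : ℝ) ≤ (nonblue G S₀ v : ℝ) := Nat.cast_nonneg _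
    linarith
  have hy1 : 0 ≤ y v := by
    have := hy v (hS hv)
    have h2 : (0 : ℝ) ≤ (nonred G S₀ v : ℝ) := Nat.cast_nonneg _
    linarith
  have h3 := mul_le_mul_of_nonneg_right ha hx1
  have h4 := mul_le_mul_of_nonneg_right hb hy1
  linarith

theorem hasType_single {W : Type} (R : SimpleGraph W) (c : W) : HasType R {c} 0 0 := by
  intro n G S₀ x y hx hy S hS hne hlt
  obtain ⟨v, hv⟩ := hne
  refine ⟨fun _ => v, by simp, fun _ _ => hv, ?_⟩
  intro x hx y hy
  rw [Finset.mem_singleton] at hx hy
  subst hx; subst hy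
  exact ⟨fun h => (R.loopless.irrefl _ h).elim, fun h => (Rᶜ.loopless.irrefl _ h).elim⟩

theorem hasType_of_PMs (hL : PartLOV) (hE : PartEMBS) {W : Type} [Fintype W] [DecidableEq W]
    (R : SimpleGraph W) (T : Finset W) (s : ℕ) (hT : T.Nonempty) (hP : PMs R T s) :
    HasType R T (((T.card : ℝ) + s - 1) / 2) (((T.card : ℝ) + s - 1) / 2) := by
  intro n G S₀ x y hx hy S hS hne hlt
  obtain ⟨w, hw, hmax⟩ := Finset.exists_max_image S
    (fun v => nonred G S v + nonblue G S v) hne
  set D : ℕ := nonred G S w + nonblue G S w with hD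
  set N : ℕ := D / 2 + 1 with hN
  have hT1 : 1 ≤ T.card := hT.card_pos
  have hND : D < 2 * N := by omega
  have hNle : (N : ℝ) ≤ 1 + (D : ℝ) / 2 := by
    have : 2 * (D / 2) ≤ D := Nat.mul_div_le D 2
    have h2 : (2 : ℝ) * ((D / 2 : ℕ) : ℝ) ≤ D := by exact_mod_cast this
    rw [hN]; push_cast at h2 ⊢; linarith
  have h1 : ∀ v ∈ S, nonred G S v + nonblue G S v < 2 * N := by
    intro v hv
    have h2 := hmax v hv
    omega
  have hxy : (2 : ℝ) + D ≤ x w + y w := by
    have h2 := hx w (hS hw)
    have h3 := hy w (hS hw)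
    have h4 : (nonred G S w : ℝ) ≤ nonred G S₀ w := by exact_mod_cast nonred_mono G hS w
    have h5 : (nonblue G S w : ℝ) ≤ nonblue G S₀ w := by exact_mod_cast nonblue_mono G hS w
    rw [hD]; push_cast; linarith
  have hTs : (0 : ℝ) ≤ (T.card : ℝ) + s - 1 := by
    have h2 : (1 : ℝ) ≤ T.card := by exact_mod_cast hT1
    have h3 : (0 : ℝ) ≤ (s : ℝ) := Nat.cast_nonneg s
    linarith
  have h2 : (T.card + s - 1) * N < S.card := by
    have h3 := hlt w hw
    have h4 : ((T.card : ℝ) + s - 1) * N < (S.card : ℝ) := by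
      have h5 : ((T.card : ℝ) + s - 1) * N ≤ ((T.card : ℝ) + s - 1) * ((x w + y w) / 2) := by
        apply mul_le_mul_of_nonneg_left _ hTs
        linarith
      have h6 : ((T.card : ℝ) + s - 1) * ((x w + y w) / 2) =
        ((T.card : ℝ) + s - 1) / 2 * x w + ((T.card : ℝ) + s - 1) / 2 * y w := by ring
      linarith
    have h5 : (((T.card + s - 1 : ℕ) * N : ℕ) : ℝ) < (S.card : ℝ) := by
      rw [Nat.cast_mul, Nat.cast_sub (by omega)]; push_cast; push_cast at h4; exact h4
    exact_mod_cast h5
  obtain ⟨U, hUS, hUc, hU⟩ := hL n G S N (T.card + s - 1) h1 h2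
  have hc' : U.card = T.card + s := by rw [hUc]; omega
  exact (hE n G U W R T s hT hU hc' hP).mono hUS

theorem PMs_zero {W : Type} {R : SimpleGraph W} {T : Finset W} (h : PM R T) : PMs R T 0 := by
  intro i j hij
  have h1 := h i (T.card / 2 - i) (by omega)
  refine ⟨i, j, le_refl _, le_refl _, by omega, ?_⟩
  obtain ⟨f, hf1, hf2, hf3⟩ := h1
  have hj : j ≤ T.card / 2 - i := by omega
  refine ⟨⟨fun z => f ((Sum.map id (Fin.castLE hj) z.1), z.2), ?_⟩, fun z => hf1 _, ?_, ?_⟩
  · rintro ⟨z, c⟩ ⟨z', c'⟩ hzz
    have := f.injective hzz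
    simp only [Prod.mk.injEq] at this ⊢
    refine ⟨?_, this.2⟩
    rcases z with z | z <;> rcases z' with z' | z' <;> simp_all
  · intro a; exact hf2 a
  · intro b; exact hf3 (Fin.castLE hj b)

/-- smaller matchings -/
theorem HasRB.mono {W : Type} {R : SimpleGraph W} {T : Finset W} {i j i' j' : ℕ}
    (h : HasRB R T i j) (hi : i' ≤ i) (hj : j' ≤ j) : HasRB R T i' j' := by
  obtain ⟨f, hf1, hf2, hf3⟩ := h
  refine ⟨⟨fun z => f ((Sum.map (Fin.castLE hi) (Fin.castLE hj) z.1), z.2), ?_⟩,
    fun z => hf1 _, ?_, ?_⟩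
  · rintro ⟨z, c⟩ ⟨z', c'⟩ hzz
    have := f.injective hzz
    simp only [Prod.mk.injEq] at this ⊢
    refine ⟨?_, this.2⟩
    rcases z with z | z <;> rcases z' with z' | z' <;> simp_all
  · intro a; exact hf2 (Fin.castLE hi a)
  · intro b; exact hf3 (Fin.castLE hj b)

theorem HasRB.swap {W : Type} {R : SimpleGraph W} {T : Finset W} {i j : ℕ}
    (h : HasRB R T i j) : HasRB Rᶜ T j i := by
  obtain ⟨f, hf1, hf2, hf3⟩ := h
  refine ⟨⟨fun z => f (Sum.swap z.1, z.2), ?_⟩, fun z => hf1 _, ?_, ?_⟩
  · rintro ⟨z, c⟩ ⟨z', c'⟩ hzz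
    have := f.injective hzz
    simp only [Prod.mk.injEq] at this ⊢
    refine ⟨?_, this.2⟩
    have h2 := congrArg Sum.swap this.1
    simpa using h2
  · intro a; exact hf3 a
  · intro b; rw [compl_compl]; exact hf2 b

theorem PMs_of_matchings (hI : PartINT) {W : Type} [Fintype W] [DecidableEq W]
    (R : SimpleGraph W) (T : Finset W) (m : ℕ) (hm : 2 * m < T.card)
    (h1 : HasRB R T m 0) (h2 : HasRB R T 0 m) : PMs R T (T.card - 2 * m - 1) := by
  intro i j hij
  have hI' := hI W R T m hm h1 h2
  by_cases h : i + j ≤ T.card - 2 * m - 1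
  · exact ⟨0, 0, Nat.zero_le _, Nat.zero_le _, by omega, h1.mono (Nat.zero_le _) (le_refl _)⟩
  · push Not at h
    -- total to keep
    set k : ℕ := i + j - (T.card - 2 * m - 1) with hk
    have hkm : k ≤ m := by omega
    set i' : ℕ := min i k with hi'
    have hi1 : i' ≤ i := min_le_left _ _
    have hi2 : i' ≤ k := min_le_right _ _
    have hj1 : k - i' ≤ j := by omega
    refine ⟨i', k - i', hi1, hj1, by omega, ?_⟩
    exact (hI' i' (m - i') (by omega)).mono (le_refl _) (by omega)

/-- from a type to the extremal bound -/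
theorem step_of_type {h : ℕ} (R : SimpleGraph (Fin h)) {a b : ℝ} (hab : 0 < a + b)
    (hR : HasType R univ a b) (n : ℕ) (G : MG (Fin n))
    (hG : ¬ Contains G R) (S : Finset (Fin n)) (hS : S.Nonempty) :
    ∃ v ∈ S, (S.card : ℝ) / (a + b) - 1 ≤
        (b / (a + b)) * (nonred G S v : ℝ) + (1 - b / (a + b)) * (nonblue G S v : ℝ) := by
  by_contra hcon
  push Not at hcon
  apply hG
  apply contains_of_embIn (U := S)
  refine hR n G S (fun v => 1 + (nonblue G S v : ℝ)) (fun v => 1 + (nonred G S v : ℝ))
    (fun v _ => le_refl _) (fun v _ => le_refl _) S (Finset.Subset.refl _) hS ?_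
  intro v hv
  have h1 := hcon v hv
  have h3 : (b / (a + b) * (nonred G S v : ℝ) +
      (1 - b / (a + b)) * (nonblue G S v : ℝ) + 1) * (a + b) < S.card := by
    have h4 : b / (a + b) * (nonred G S v : ℝ) +
      (1 - b / (a + b)) * (nonblue G S v : ℝ) + 1 < (S.card : ℝ) / (a + b) := by linarith
    rwa [lt_div_iff₀ hab] at h4
  have h5 : (b / (a + b) * (nonred G S v : ℝ) +
      (1 - b / (a + b)) * (nonblue G S v : ℝ) + 1) * (a + b) =
      a * (1 + (nonblue G S v : ℝ)) + b * (1 + (nonred G S v : ℝ)) := by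
    field_simp; ring
  rw [h5] at h3
  exact h3

theorem ex_le_of_type (hW : PartWGT) (hSum : PartSUM) {h : ℕ} (hh : 2 ≤ h)
    (R : SimpleGraph (Fin h)) {a b c : ℝ} (hab : 0 < a + b) (hc : a + b = c)
    (hR : HasType R univ a b) (n : ℕ) :
    ex (b / (a + b)) n R ≤ (1 - 1 / c) * (n.choose 2 : ℝ) + n := by
  subst hc
  apply ex_le hh
  intro G hG
  have h1 := weight_le_of_step hW hSum G (b / (a + b)) (fun m => (m : ℝ) / (a + b) - 1)
    (fun S hS => step_of_type R hab hR n G hG S hS)
  have h2 : (n.choose 2 : ℝ) / (a + b) - n ≤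
      ∑ m ∈ range n, (((m + 1 : ℕ) : ℝ) / (a + b) - 1) := by
    rw [Finset.sum_sub_distrib, ← Finset.sum_div]
    simp only [Finset.sum_const, Finset.card_range, nsmul_eq_mul, mul_one]
    have h3 : ((n.choose 2 : ℕ) : ℝ) ≤ ∑ m ∈ range n, ((m + 1 : ℕ) : ℝ) := by
      rw [choose_two_eq_sum]
      apply Finset.sum_le_sum
      intro m _
      push_cast
      linarith
    have := div_le_div_of_nonneg_right h3 hab.le
    linarith
  have h4 : (1 - 1 / (a + b)) * (n.choose 2 : ℝ) =
      (n.choose 2 : ℝ) - (n.choose 2 : ℝ) / (a + b) := by ring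
  rw [h4]
  linarith

theorem n_div_choose : Tendsto (fun n : ℕ => (n : ℝ) / (n.choose 2 : ℝ)) atTop (nhds 0) := by
  have h1 : Tendsto (fun n : ℕ => 2 / ((n : ℝ) - 1)) atTop (nhds 0) := by
    apply Tendsto.div_atTop tendsto_const_nhds
    exact tendsto_atTop_add_const_right _ (-1) tendsto_natCast_atTop_atTop
  apply h1.congr'
  filter_upwards [eventually_ge_atTop 2] with n hn
  rw [Nat.cast_choose_two]
  have : (2 : ℝ) ≤ n := by exact_mod_cast hn
  have h5 : (n : ℝ) - 1 ≠ 0 := by linarith
  have h6 : (n : ℝ) ≠ 0 := by linarith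
  field_simp

/-- upper bound for the limit -/
theorem mu_le_of_type (hW : PartWGT) (hSum : PartSUM) (hM : PartMON) {h : ℕ} (hh : 2 ≤ h)
    (R : SimpleGraph (Fin h)) {a b : ℝ} (ha : 0 ≤ a) (hb : 0 ≤ b) (hab : 0 < a + b)
    (hR : HasType R univ a b) :
    0 ≤ b / (a + b) ∧ b / (a + b) ≤ 1 ∧ ∃ μ : ℝ, μ ≤ 1 - 1 / (a + b) ∧
      Tendsto (fun n : ℕ => ex (b / (a + b)) n R / (n.choose 2 : ℝ)) atTop (nhds μ) := by
  have hp0 : 0 ≤ b / (a + b) := by positivity
  have hp1 : b / (a + b) ≤ 1 := by rw [div_le_one hab]; linarith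
  refine ⟨hp0, hp1, ?_⟩
  obtain ⟨μ, hμ⟩ := hM h R (b / (a + b)) hh hp0 hp1
  refine ⟨μ, ?_, hμ⟩
  have hnn : Tendsto (fun n : ℕ => (1 - 1 / (a + b)) + (n : ℝ) / (n.choose 2 : ℝ)) atTop
      (nhds ((1 - 1 / (a + b)) + 0)) := tendsto_const_nhds.add n_div_choose
  rw [add_zero] at hnn
  refine le_of_tendsto_of_tendsto hμ hnn ?_
  filter_upwards [eventually_ge_atTop 2] with n hn
  have hpos : (0 : ℝ) < (n.choose 2 : ℝ) := by exact_mod_cast Nat.choose_pos hn
  rw [div_le_iff₀ hpos, add_mul, div_mul_cancel₀ _ hpos.ne']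
  exact ex_le_of_type hW hSum hh R hab rfl hR n

/-- exact value from a type of total `h - 1` -/
theorem mu_eq_of_type (hW : PartWGT) (hSum : PartSUM) (hT : PartTUR) {h : ℕ} (hh : 2 ≤ h)
    (R : SimpleGraph (Fin h)) {a b : ℝ} (ha : 0 ≤ a) (hb : 0 ≤ b) (hab : a + b = (h : ℝ) - 1)
    (hR : HasType R univ a b) :
    ∃ p : ℝ, 0 ≤ p ∧ p ≤ 1 ∧ Tendsto (fun n : ℕ => ex p n R / (n.choose 2 : ℝ)) atTop
      (nhds (1 - 1 / ((h : ℝ) - 1))) := by
  have hh1 : (0 : ℝ) < (h : ℝ) - 1 := by
    have : (2 : ℝ) ≤ h := by exact_mod_cast hh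
    linarith
  have hab0 : 0 < a + b := by rw [hab]; exact hh1
  have hp0 : 0 ≤ b / (a + b) := by positivity
  have hp1 : b / (a + b) ≤ 1 := by rw [div_le_one hab0]; linarith
  refine ⟨b / (a + b), hp0, hp1, ?_⟩
  have hcast : ((h - 1 : ℕ) : ℝ) = (h : ℝ) - 1 := by
    rw [Nat.cast_sub (by omega)]; simp
  have hlow := hT.2.2 (h - 1) (by omega)
  rw [hcast] at hlow
  have hnn : Tendsto (fun n : ℕ => (1 - 1 / ((h : ℝ) - 1)) + (n : ℝ) / (n.choose 2 : ℝ)) atTop
      (nhds ((1 - 1 / ((h : ℝ) - 1)) + 0)) := tendsto_const_nhds.add n_div_choose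
  rw [add_zero] at hnn
  refine tendsto_of_tendsto_of_tendsto_of_le_of_le' hlow hnn ?_ ?_
  · filter_upwards with n
    apply div_le_div_of_nonneg_right (hT.2.1 n h _ R hh hp0 hp1)
    positivity
  · filter_upwards [eventually_ge_atTop 2] with n hn
    have hpos : (0 : ℝ) < (n.choose 2 : ℝ) := by exact_mod_cast Nat.choose_pos hn
    rw [div_le_iff₀ hpos, add_mul, div_mul_cancel₀ _ hpos.ne']
    exact ex_le_of_type hW hSum hh R hab0 hab hR n

/-- types of peeled sets -/
theorem hasType_peel (hS : PartSTEP) {W : Type} [Fintype W] [DecidableEq W]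
    (R : SimpleGraph W) (T : Finset W) {a b : ℝ} (ha : 0 ≤ a) (hb : 0 ≤ b)
    (hT : HasType R T a b) : ∀ (S : Finset W) (k l : ℕ), Peel R T S k l →
      HasType R S (a + k) (b + l) := by
  intro S k l h
  induction h with
  | base => simpa using hT
  | blue S k l c hc h1 h2 ih =>
    have := (hS W R S (a + k) (b + l) c (by positivity) (by positivity) hc ih).1 h1
    have e : a + ((k + 1 : ℕ) : ℝ) = a + k + 1 := by push_cast; ring
    rw [e]; exact this
  | red S k l c hc h1 h2 ih =>
    have := (hS W R S (a + k) (b + l) c (by positivity) (by positivity) hc ih).2.1 h1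
    have e : b + ((l + 1 : ℕ) : ℝ) = b + l + 1 := by push_cast; ring
    rw [e]; exact this

/-- adding a set of vertices each joined in blue to everything else -/
theorem addBlue (hS : PartSTEP) {W : Type} [Fintype W] [DecidableEq W]
    (R : SimpleGraph W) (T : Finset W) {a b : ℝ} (ha : 0 ≤ a) (hb : 0 ≤ b)
    (hT : HasType R T a b) : ∀ Q : Finset W, Disjoint Q T →
      (∀ x ∈ Q, ∀ y ∈ Q ∪ T, ¬ R.Adj x y) → HasType R (Q ∪ T) (a + Q.card) b := by
  intro Q
  induction Q using Finset.induction_on with
  | empty => intro _ _; simpa using hT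
  | insert c Q hc ih =>
    intro hd hadj
    have hd' : Disjoint Q T := Finset.disjoint_of_subset_left (Finset.subset_insert _ _) hd
    have h1 := ih hd' (fun x hx y hy => hadj x (Finset.mem_insert_of_mem hx) y (by
      rw [Finset.mem_union] at hy ⊢
      rcases hy with hy | hy
      · exact Or.inl (Finset.mem_insert_of_mem hy)
      · exact Or.inr hy))
    have hcT : c ∉ Q ∪ T := by
      rw [Finset.mem_union]
      rintro (h | h)
      · exact hc h
      · exact Finset.disjoint_left.1 hd (Finset.mem_insert_self _ _) h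
    have h2 := (hS W R (Q ∪ T) (a + Q.card) b c (by positivity) hb hcT h1).1 (fun s hs =>
      hadj c (Finset.mem_insert_self _ _) s (by
        rw [Finset.mem_union] at hs ⊢
        rcases hs with hs | hs
        · exact Or.inl (Finset.mem_insert_of_mem hs)
        · exact Or.inr hs))
    rw [Finset.insert_union, Finset.card_insert_of_notMem hc]
    have e : a + ((Q.card + 1 : ℕ) : ℝ) = a + Q.card + 1 := by push_cast; ring
    rw [e]; exact h2

theorem addRed (hS : PartSTEP) {W : Type} [Fintype W] [DecidableEq W]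
    (R : SimpleGraph W) (T : Finset W) {a b : ℝ} (ha : 0 ≤ a) (hb : 0 ≤ b)
    (hT : HasType R T a b) : ∀ Q : Finset W, Disjoint Q T →
      (∀ x ∈ Q, ∀ y ∈ Q ∪ T, ¬ Rᶜ.Adj x y) → HasType R (Q ∪ T) a (b + Q.card) := by
  intro Q
  induction Q using Finset.induction_on with
  | empty => intro _ _; simpa using hT
  | insert c Q hc ih =>
    intro hd hadj
    have hd' : Disjoint Q T := Finset.disjoint_of_subset_left (Finset.subset_insert _ _) hd
    have h1 := ih hd' (fun x hx y hy => hadj x (Finset.mem_insert_of_mem hx) y (by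
      rw [Finset.mem_union] at hy ⊢
      rcases hy with hy | hy
      · exact Or.inl (Finset.mem_insert_of_mem hy)
      · exact Or.inr hy))
    have hcT : c ∉ Q ∪ T := by
      rw [Finset.mem_union]
      rintro (h | h)
      · exact hc h
      · exact Finset.disjoint_left.1 hd (Finset.mem_insert_self _ _) h
    have h2 := (hS W R (Q ∪ T) a (b + Q.card) c ha (by positivity) hcT h1).2.1 (fun s hs => by
      have h3 := hadj c (Finset.mem_insert_self _ _) s (by
        rw [Finset.mem_union] at hs ⊢
        rcases hs with hs | hs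
        · exact Or.inl (Finset.mem_insert_of_mem hs)
        · exact Or.inr hs)
      rw [SimpleGraph.compl_adj] at h3
      push Not at h3
      exact h3 (fun h => hcT (h ▸ hs)))
    rw [Finset.insert_union, Finset.card_insert_of_notMem hc]
    have e : b + ((Q.card + 1 : ℕ) : ℝ) = b + Q.card + 1 := by push_cast; ring
    rw [e]; exact h2

theorem addAny (hS : PartSTEP) {W : Type} [Fintype W] [DecidableEq W]
    (R : SimpleGraph W) (T : Finset W) {a b : ℝ} (ha : 0 ≤ a) (hb : 0 ≤ b)
    (hT : HasType R T a b) : ∀ A : Finset W, Disjoint A T →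
      HasType R (A ∪ T) (a + A.card) (b + A.card) := by
  intro A
  induction A using Finset.induction_on with
  | empty => intro _; simpa using hT
  | insert c A hc ih =>
    intro hd
    have hd' : Disjoint A T := Finset.disjoint_of_subset_left (Finset.subset_insert _ _) hd
    have h1 := ih hd'
    have hcT : c ∉ A ∪ T := by
      rw [Finset.mem_union]
      rintro (h | h)
      · exact hc h
      · exact Finset.disjoint_left.1 hd (Finset.mem_insert_self _ _) h
    have h2 := (hS W R (A ∪ T) (a + A.card) (b + A.card) c (by positivity) (by positivity)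
      hcT h1).2.2
    rw [Finset.insert_union, Finset.card_insert_of_notMem hc]
    have e : a + ((A.card + 1 : ℕ) : ℝ) = a + A.card + 1 := by push_cast; ring
    have e' : b + ((A.card + 1 : ℕ) : ℝ) = b + A.card + 1 := by push_cast; ring
    rw [e, e']; exact h2

/-- the universal type bound -/
theorem universalType (hL : PartLOV) (hE : PartEMBS) (hS : PartSTEP) (hI : PartINT)
    (hTB : PartTB) {W : Type} [Fintype W] [DecidableEq W] (R : SimpleGraph W) :
    ∀ (t : ℕ) (T : Finset W), T.card = t → T.Nonempty →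
      ∃ a b : ℝ, 0 ≤ a ∧ 0 ≤ b ∧ HasType R T a b ∧ a + b ≤ (4 / 3) * ((T.card : ℝ) - 1) := by
  intro t
  induction t using Nat.strong_induction_on with
  | _ t ih =>
  intro T hTt hTne
  have hT1 : 1 ≤ T.card := hTne.card_pos
  by_cases hr : HasRB R T ((T.card + 1) / 3) 0
  · by_cases hb : HasRB R T 0 ((T.card + 1) / 3)
    · -- both matchings
      set m : ℕ := (T.card + 1) / 3 with hm
      have h2m : 2 * m < T.card ∨ T.card = 2 := by omega
      by_cases hlt : 2 * m < T.card
      · have hP := PMs_of_matchings hI R T m hlt hr hb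
        have hty := hasType_of_PMs hL hE R T _ hTne hP
        have hcast : ((T.card - 2 * m - 1 : ℕ) : ℝ) = (T.card : ℝ) - 2 * m - 1 := by
          rw [Nat.cast_sub (by omega), Nat.cast_sub (by omega)]; push_cast; ring
        have h3 : (T.card : ℝ) - 1 ≤ 3 * (m : ℝ) := by
          have : T.card ≤ 3 * m + 1 := by omega
          have h4 : (T.card : ℝ) ≤ 3 * (m : ℝ) + 1 := by exact_mod_cast this
          linarith
        have h5 : (2 : ℝ) * m < T.card := by exact_mod_cast hlt
        have h6 : (1 : ℝ) ≤ T.card := by exact_mod_cast hT1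
        have h7 : (2 : ℝ) * m + 1 ≤ T.card := by
          have : 2 * m + 1 ≤ T.card := hlt
          exact_mod_cast this
        refine ⟨_, _, ?_, ?_, hty, ?_⟩
        · rw [hcast]; linarith
        · rw [hcast]; linarith
        · rw [hcast]; linarith
      · have h2 : T.card = 2 := by omega
        -- both a red and a blue edge on two vertices: impossible
        exfalso
        have hm1 : m = 1 := by rw [hm, h2]
        rw [hm1] at hr hb
        obtain ⟨f, hf1, hf2, -⟩ := hr
        obtain ⟨g, hg1, -, hg3⟩ := hb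
        have hf := hf2 0
        have hg := hg3 0
        obtain ⟨u, v, huv, hT'⟩ := Finset.card_eq_two.1 h2
        have hfu : ∀ z, f z = u ∨ f z = v := by
          intro z; have := hf1 z; rw [hT'] at this; simpa using this
        have hgu : ∀ z, g z = u ∨ g z = v := by
          intro z; have := hg1 z; rw [hT'] at this; simpa using this
        have hne1 : f (Sum.inl 0, false) ≠ f (Sum.inl 0, true) := hf.ne
        have hne2 : g (Sum.inr 0, false) ≠ g (Sum.inr 0, true) := hg.ne
        rw [SimpleGraph.compl_adj] at hg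
        have hRuv : R.Adj u v := by
          rcases hfu (Sum.inl 0, false) with h1 | h1 <;>
            rcases hfu (Sum.inl 0, true) with h2 | h2
          · exact (hne1 (h1.trans h2.symm)).elim
          · rw [h1, h2] at hf; exact hf
          · rw [h1, h2] at hf; exact hf.symm
          · exact (hne1 (h1.trans h2.symm)).elim
        rcases hgu (Sum.inr 0, false) with h1 | h1 <;>
            rcases hgu (Sum.inr 0, true) with h2 | h2
        · exact hne2 (h1.trans h2.symm)
        · rw [h1, h2] at hg; exact hg.2 hRuv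
        · rw [h1, h2] at hg; exact hg.2 hRuv.symm
        · exact hne2 (h1.trans h2.symm)
    · -- few blue edges
      have hb' : ¬ HasRB Rᶜ T ((T.card + 1) / 3) 0 := by
        intro h
        apply hb
        have := h.swap
        rwa [compl_compl] at this
      obtain ⟨A, Q, hA, hQ, hAQ, hadj, hcard⟩ := hTB W Rᶜ T hb'
      set L : Finset W := T \ (A ∪ Q) with hLdef
      have hLT : L ⊆ T := Finset.sdiff_subset
      have hQL : Disjoint Q L := by
        rw [hLdef]
        exact Finset.disjoint_of_subset_left Finset.subset_union_right Finset.disjoint_sdiff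
      have hAQL : Disjoint A (Q ∪ L) := by
        rw [Finset.disjoint_union_right]
        refine ⟨hAQ, ?_⟩
        rw [hLdef]
        exact Finset.disjoint_of_subset_left Finset.subset_union_left Finset.disjoint_sdiff
      have hTeq : A ∪ (Q ∪ L) = T := by
        rw [← Finset.union_assoc, hLdef, Finset.union_sdiff_of_subset]
        exact Finset.union_subset hA hQ
      have hcT : (T.card : ℝ) = A.card + Q.card + L.card := by
        rw [← hTeq, Finset.card_union_of_disjoint hAQL, Finset.card_union_of_disjoint hQL]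
        push_cast; ring
      have hcard' : 2 * (A.card : ℝ) + 2 ≤ Q.card := by exact_mod_cast hcard
      have hQadj : ∀ x ∈ Q, ∀ y ∈ Q ∪ L, ¬ Rᶜ.Adj x y := by
        intro x hx y hy
        refine hadj x hx y ?_ ?_
        · rw [← hTeq]; exact Finset.mem_union_right _ hy
        · exact fun h => Finset.disjoint_left.1 hAQL h hy
      by_cases hLe : L.Nonempty
      · have hLc : L.card < t := by
          have h1 : L.card + Q.card ≤ T.card := by
            have : Q ∪ L ⊆ T := by rw [← hTeq]; exact Finset.subset_union_right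
            have := Finset.card_le_card this
            rw [Finset.card_union_of_disjoint hQL] at this
            omega
          omega
        obtain ⟨a, b, ha, hb0, hty, hsum⟩ := ih L.card hLc L rfl hLe
        have h1 := addRed hS R L ha hb0 hty Q hQL hQadj
        have h2 := addAny hS R (Q ∪ L) ha (by positivity) h1 A hAQL
        rw [hTeq] at h2
        refine ⟨_, _, by positivity, by positivity, h2, ?_⟩
        rw [hcT]; linarith
      · rw [Finset.not_nonempty_iff_eq_empty] at hLe
        rw [hLe, Finset.union_empty] at hTeq hAQL hQadj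
        rw [hLe] at hcT
        have hQne : Q.Nonempty := by
          rw [← Finset.card_pos]; omega
        obtain ⟨c, hc⟩ := hQne
        have hQc : Q.erase c ∪ {c} = Q := by
          rw [Finset.union_comm, ← Finset.insert_eq, Finset.insert_erase hc]
        have h0 := addRed hS R {c} (le_refl _) (le_refl _) (hasType_single R c) (Q.erase c)
          (by simp) (fun x hx y hy => by
            rw [hQc] at hy
            exact hQadj x (Finset.mem_of_mem_erase hx) y hy)
        rw [hQc] at h0
        have h2 := addAny hS R Q (le_refl _) (by positivity) h0 A hAQL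
        rw [hTeq] at h2
        refine ⟨_, _, by positivity, by positivity, h2, ?_⟩
        have hce : ((Q.erase c).card : ℝ) = Q.card - 1 := by
          rw [Finset.card_erase_of_mem hc, Nat.cast_sub (Finset.card_pos.2 ⟨c, hc⟩)]; simp
        rw [hcT, hce]; simp only [Finset.card_empty, Nat.cast_zero]; linarith
  · -- few red edges
    obtain ⟨A, Q, hA, hQ, hAQ, hadj, hcard⟩ := hTB W R T hr
    set L : Finset W := T \ (A ∪ Q) with hLdef
    have hLT : L ⊆ T := Finset.sdiff_subset
    have hQL : Disjoint Q L := by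
      rw [hLdef]
      exact Finset.disjoint_of_subset_left Finset.subset_union_right Finset.disjoint_sdiff
    have hAQL : Disjoint A (Q ∪ L) := by
      rw [Finset.disjoint_union_right]
      refine ⟨hAQ, ?_⟩
      rw [hLdef]
      exact Finset.disjoint_of_subset_left Finset.subset_union_left Finset.disjoint_sdiff
    have hTeq : A ∪ (Q ∪ L) = T := by
      rw [← Finset.union_assoc, hLdef, Finset.union_sdiff_of_subset]
      exact Finset.union_subset hA hQ
    have hcT : (T.card : ℝ) = A.card + Q.card + L.card := by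
      rw [← hTeq, Finset.card_union_of_disjoint hAQL, Finset.card_union_of_disjoint hQL]
      push_cast; ring
    have hcard' : 2 * (A.card : ℝ) + 2 ≤ Q.card := by exact_mod_cast hcard
    have hQadj : ∀ x ∈ Q, ∀ y ∈ Q ∪ L, ¬ R.Adj x y := by
      intro x hx y hy
      refine hadj x hx y ?_ ?_
      · rw [← hTeq]; exact Finset.mem_union_right _ hy
      · exact fun h => Finset.disjoint_left.1 hAQL h hy
    by_cases hLe : L.Nonempty
    · have hLc : L.card < t := by
        have h1 : L.card + Q.card ≤ T.card := by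
          have : Q ∪ L ⊆ T := by rw [← hTeq]; exact Finset.subset_union_right
          have := Finset.card_le_card this
          rw [Finset.card_union_of_disjoint hQL] at this
          omega
        omega
      obtain ⟨a, b, ha, hb0, hty, hsum⟩ := ih L.card hLc L rfl hLe
      have h1 := addBlue hS R L ha hb0 hty Q hQL hQadj
      have h2 := addAny hS R (Q ∪ L) (by positivity) hb0 h1 A hAQL
      rw [hTeq] at h2
      refine ⟨_, _, by positivity, by positivity, h2, ?_⟩
      rw [hcT]; linarith
    · rw [Finset.not_nonempty_iff_eq_empty] at hLe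
      rw [hLe, Finset.union_empty] at hTeq hAQL hQadj
      rw [hLe] at hcT
      have hQne : Q.Nonempty := by
        rw [← Finset.card_pos]; omega
      obtain ⟨c, hc⟩ := hQne
      have hQc : Q.erase c ∪ {c} = Q := by
        rw [Finset.union_comm, ← Finset.insert_eq, Finset.insert_erase hc]
      have h0 := addBlue hS R {c} (le_refl _) (le_refl _) (hasType_single R c) (Q.erase c)
        (by simp) (fun x hx y hy => by
          rw [hQc] at hy
          exact hQadj x (Finset.mem_of_mem_erase hx) y hy)
      rw [hQc] at h0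
      have h2 := addAny hS R Q (by positivity) (le_refl _) h0 A hAQL
      rw [hTeq] at h2
      refine ⟨_, _, by positivity, by positivity, h2, ?_⟩
      have hce : ((Q.erase c).card : ℝ) = Q.card - 1 := by
        rw [Finset.card_erase_of_mem hc, Nat.cast_sub (Finset.card_pos.2 ⟨c, hc⟩)]; simp
      rw [hcT, hce]; simp only [Finset.card_empty, Nat.cast_zero]; linarith

end W872.MX
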