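import Pool.Agent.W872.MX.Stm

/-! Second round of parts for MP_a05470_co. -/

set_option autoImplicit false

namespace W872.MX

open Finset Filter

/-- `HasType R T a b`: whenever `a x(v) + b y(v) < |S|` for all `v` in the nonempty set `S`,
`R` restricted to `T` embeds in `S`; here `x(v)` (resp. `y(v)`) bounds one plus the number of
vertices not joined to `v` in blue (resp. red). -/
def HasType {W : Type} (R : SimpleGraph W) (T : Finset W) (a b : ℝ) : Prop :=
  ∀ (n : ℕ) (G : MG (Fin n)) (S₀ : Finset (Fin n)) (x y : Fin n → ℝ),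
    (∀ v ∈ S₀, 1 + (nonblue G S₀ v : ℝ) ≤ x v) → (∀ v ∈ S₀, 1 + (nonred G S₀ v : ℝ) ≤ y v) →
    ∀ S ⊆ S₀, S.Nonempty → (∀ v ∈ S, a * x v + b * y v < S.card) → EmbIn G S R T

/-- the matching property with slack `s` -/
def PMs {W : Type} (R : SimpleGraph W) (T : Finset W) (s : ℕ) : Prop :=
  ∀ i j : ℕ, 2 * (i + j) ≤ T.card + s →
    ∃ i' j' : ℕ, i' ≤ i ∧ j' ≤ j ∧ i + j ≤ i' + j' + s ∧ HasRB R T i' j'

/-- PART.STEP: adding one vertex. -/
def PartSTEP : Prop :=
  ∀ (W : Type) [Fintype W] [DecidableEq W] (R : SimpleGraph W) (T : Finset W) (a b : ℝ) (c : W),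
    0 ≤ a → 0 ≤ b → c ∉ T → HasType R T a b →
    ((∀ s ∈ T, ¬ R.Adj c s) → HasType R (insert c T) (a + 1) b) ∧
    ((∀ s ∈ T, R.Adj c s) → HasType R (insert c T) a (b + 1)) ∧
    HasType R (insert c T) (a + 1) (b + 1)

/-- PART.EMBS: embedding with slack. -/
def PartEMBS : Prop :=
  ∀ (n : ℕ) (G : MG (Fin n)) (U : Finset (Fin n)) (W : Type) [Fintype W] [DecidableEq W]
    (R : SimpleGraph W) (T : Finset W) (s : ℕ), T.Nonempty →
    (∀ v ∈ U, nonred G U v + nonblue G U v ≤ 1) → U.card = T.card + s → PMs R T s →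
      EmbIn G U R T

/-- PART.TB: a graph with small matching number has a small set whose removal leaves many
isolated vertices (from the Tutte-Berge formula). -/
def PartTB : Prop :=
  ∀ (W : Type) [Fintype W] [DecidableEq W] (R : SimpleGraph W) (T : Finset W),
    ¬ HasRB R T ((T.card + 1) / 3) 0 →
    ∃ A Q : Finset W, A ⊆ T ∧ Q ⊆ T ∧ Disjoint A Q ∧
      (∀ x ∈ Q, ∀ y ∈ T, y ∉ A → ¬ R.Adj x y) ∧ 2 * A.card + 2 ≤ Q.card

/-- PART.INT: interpolation between a red and a blue matching leaving a free vertex. -/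
def PartINT : Prop :=
  ∀ (W : Type) [Fintype W] [DecidableEq W] (R : SimpleGraph W) (T : Finset W) (m : ℕ),
    2 * m < T.card → HasRB R T m 0 → HasRB R T 0 m → ∀ i j : ℕ, i + j = m → HasRB R T i j

/-- PART.MON: the limit defining `μ_p(H)` exists. -/
def PartMON : Prop :=
  ∀ (h : ℕ) (R : SimpleGraph (Fin h)) (p : ℝ), 2 ≤ h → 0 ≤ p → p ≤ 1 →
    ∃ μ : ℝ, Tendsto (fun n : ℕ => ex p n R / (n.choose 2 : ℝ)) atTop (nhds μ)

/-- PART.GAD: for even order, a gadget on four vertices. -/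
def PartGAD : Prop :=
  ∀ (t : ℕ) (R : SimpleGraph (Fin (2 * t))) (Q : Finset (Fin (2 * t))), Q.card = 4 →
    HasRB R Q 2 0 → HasRB R Q 1 1 → HasRB R Q 0 2 →
    HasRB R Qᶜ (t - 2) 0 → HasRB R Qᶜ 0 (t - 2) → PM R univ

/-- PART.RNDE: almost all colourings of even order have property `PM`. -/
def PartRNDE : Prop :=
  Tendsto (fun t : ℕ => ((Nat.card {R : SimpleGraph (Fin (2 * t)) // PM R univ} : ℕ) : ℝ) /
    ((Nat.card (SimpleGraph (Fin (2 * t))) : ℕ) : ℝ)) atTop (nhds 1)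

end W872.MX
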